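import Pool.Agent.H144.TW.All

set_option autoImplicit false

/-! An arithmetic criterion for the orders of groups without good two-sided group codes. -/

namespace Pool.Agent.H144.OS

/-- `p` is a good prime factor of `n`. -/
def GP (n p : ℕ) : Prop :=
  p.Prime ∧ p ∣ n ∧ ¬ p ^ 2 ∣ n ∧ ((p - 1) / 2).Coprime (n / p).totient ∧
    ((p - 1) / 2).Coprime (n / p) ∧ ∀ d : ℕ, d ∣ n → d ≡ 1 [MOD p] → d = 1

theorem criterion (F : Type) [Field F] [Fintype F] [DecidableEq F] (ε δ : ℝ) (hε : 0 < ε)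
    (hδ : 0 < δ) : ∃ k : ℕ, ∀ (G : Type) [Group G] [Fintype G] (S : Finset ℕ),
      (∀ p ∈ S, GP (Fintype.card G) p) → k ≤ S.card →
      ∀ C : Submodule F (G → F), (∀ g : G, ∀ w ∈ C, (fun x => w (g * x)) ∈ C) →
      (∀ g : G, ∀ w ∈ C, (fun x => w (x * g)) ∈ C) →
      ε * Fintype.card G ≤ Module.finrank F C →
      ∃ w ∈ C, w ≠ 0 ∧ (hammingNorm w : ℝ) ≤ δ * Fintype.card G := by
  classical
  obtain ⟨q, hq⟩ : ∃ q : ℕ, q = Fintype.card F := ⟨_, rfl⟩
  have hq0 : (0 : ℝ) < (q : ℝ) ^ 2 + 1 := by positivity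
  have hlt : (q : ℝ) ^ 2 / ((q : ℝ) ^ 2 + 1) < 1 := by
    rw [div_lt_one hq0]
    linarith
  obtain ⟨m, hm⟩ := exists_pow_lt_of_lt_one hδ hlt
  obtain ⟨M, hM⟩ : ∃ M : ℕ, M = max (q + 1) ⌈(m : ℝ) / ε⌉₊ := ⟨_, rfl⟩
  refine ⟨m + (M + 1), ?_⟩
  intro G _ _ S hS hk C hC1 hC2 hdim
  have hn0 : 0 < Fintype.card G := Fintype.card_pos
  have hn : (0 : ℝ) < Fintype.card G := by exact_mod_cast hn0
  -- large good primes
  have h1 : m ≤ (S.filter fun p => M < p).card := by
    have h2 := Finset.card_filter_add_card_filter_not (s := S) (fun p => M < p)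
    have h3 : (S.filter fun p => ¬ M < p).card ≤ M + 1 := by
      have h4 : (S.filter fun p => ¬ M < p) ⊆ Finset.range (M + 1) := by
        intro p hp
        rw [Finset.mem_filter] at hp
        rw [Finset.mem_range]
        omega
      exact (Finset.card_le_card h4).trans (by rw [Finset.card_range])
    omega
  obtain ⟨T, hT1, hT2⟩ := Finset.exists_subset_card_eq h1
  have hTS : ∀ p ∈ T, GP (Fintype.card G) p ∧ M < p := by
    intro p hp
    have := hT1 hp
    rw [Finset.mem_filter] at this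
    exact ⟨hS p this.1, this.2⟩
  have hsum : ∑ p ∈ T, Fintype.card G / p < Module.finrank F C := by
    have h5 : ((∑ p ∈ T, Fintype.card G / p : ℕ) : ℝ) < Module.finrank F C := by
      refine lt_of_lt_of_le ?_ hdim
      push_cast
      rcases Nat.eq_zero_or_pos m with h0 | h0
      · rw [h0, Finset.card_eq_zero] at hT2
        rw [hT2, Finset.sum_empty]
        positivity
      · have hm0 : (0 : ℝ) < m := by exact_mod_cast h0
        have h6 : ∀ p ∈ T, ((Fintype.card G / p : ℕ) : ℝ) < Fintype.card G * (ε / m) := by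
          intro p hp
          have h7 := (hTS p hp).2
          have h8 : (m : ℝ) / ε < p := by
            have h9 : (m : ℝ) / ε ≤ ⌈(m : ℝ) / ε⌉₊ := Nat.le_ceil _
            have h10 : (⌈(m : ℝ) / ε⌉₊ : ℝ) ≤ M := by
              rw [hM]
              exact_mod_cast le_max_right _ _
            have h11 : (M : ℝ) < p := by exact_mod_cast h7
            linarith
          have hp0 : (0 : ℝ) < p := lt_trans (by positivity) h8
          refine lt_of_le_of_lt Nat.cast_div_le ?_
          rw [div_eq_mul_inv]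
          refine mul_lt_mul_of_pos_left ?_ hn
          rw [inv_eq_one_div, div_lt_div_iff₀ hp0 hm0, one_mul]
          rw [div_lt_iff₀ hε] at h8
          linarith
        have hTne : T.Nonempty := by
          rw [← Finset.card_pos, hT2]
          exact h0
        refine (Finset.sum_lt_sum_of_nonempty hTne h6).trans_le (le_of_eq ?_)
        rw [Finset.sum_const, hT2, nsmul_eq_mul]
        field_simp
    exact_mod_cast h5
  obtain ⟨w, hw, hw0, hw1⟩ := Pool.Agent.H144.TW.all_alg F T G (fun p hp => by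
    obtain ⟨⟨h1, h2, h3, h4, h5, h6⟩, h7⟩ := hTS p hp
    refine ⟨⟨⟨h1, h2, h3, h4⟩, h5, h6⟩, ?_⟩
    rw [← hq]
    exact lt_of_le_of_lt (by rw [hM]; exact le_max_left _ _) h7) C ⟨hC1, hC2⟩ hsum
  refine ⟨w, hw, hw0, ?_⟩
  rw [hT2, ← hq] at hw1
  have h12 : ((q : ℝ) ^ 2 + 1) ^ m * hammingNorm w ≤ ((q : ℝ) ^ 2) ^ m * Fintype.card G := by
    exact_mod_cast hw1
  have h13 : (hammingNorm w : ℝ) ≤ ((q : ℝ) ^ 2 / ((q : ℝ) ^ 2 + 1)) ^ m * Fintype.card G := by
    rw [div_pow, div_mul_eq_mul_div, le_div_iff₀ (by positivity)]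
    linarith
  exact h13.trans (mul_le_mul_of_nonneg_right hm.le hn.le)

end Pool.Agent.H144.OS
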